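import Pool.Agent.Y21.CUB.C

/-! # Stopped random walks on growing trees: exact formula, biased walks, all equality cases

The laws `P_v` of the walk stopped on the trees `T_v`, for steps `+1` with probability `p` and `-1`
with probability `1 - p`. The letters are `L = false` and `R = true`.

* Exact formulas for `P_v(ℕ)` and `P_v(-ℕ)`, for every word `v` and every `p`, in terms of the
  numbers of distinct (scattered) subwords of `v` with given numbers of letters.
* If `p ≥ 1/2` then `P_v(ℕ) ≥ p` for every word `v`, with equality if and only if `v` has no letter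
  `L`, or `p = 1/2` and all runs of the letter `R` in `v` (the possibly empty ones at the beginning,
  at the end and between consecutive letters `L` included) are at least as long as the number of
  letters `L` in `v`. If there is a shorter run then `P_v(ℕ) ≥ p + (1-p) (p(1-p)) ^ m`, where `m` is
  the smaller one of the number of letters `L` and the number of letters `R` plus one.
* The mirror images for `P_v(-ℕ)` and `p ≤ 1/2`.
* For `p = 1/2`: the persistent asymmetry `P_{Lv}(ℕ) > 1/2` and `P_{Rv}(-ℕ) > 1/2` (question Q1),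
  with explicit lower bounds.
-/

set_option autoImplicit false

namespace Pool.Agent.Results.MP_64b22f_nt.BiasedEqualityCases

open Finset MeasureTheory ProbabilityTheory Pool.Agent.Y21.CUB W93.CU

/-- finite rooted planar binary trees: `node l r` is the tree with left subtree `l` and right
subtree `r` -/
inductive Tree : Type
  | leaf : Tree
  | node : Tree → Tree → Tree

/-- `τ_T` as a function of the sequence of steps: descend to the right on a step `+1` and to the
left otherwise, stop at a leaf -/
def tau : Tree → (ℕ → ℤ) → ℕ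
  | .leaf, _ => 0
  | .node l r, x => if x 0 = 1 then 1 + tau r (fun i => x (i + 1)) else 1 + tau l (fun i => x (i + 1))

/-- `S_{τ_T}` as a function of the sequence of steps -/
def stopped (T : Tree) (x : ℕ → ℤ) : ℤ := ∑ i ∈ Finset.range (tau T x), x i

/-- `T_{vL}` (letter `false`) resp. `T_{vR}` (letter `true`) from `T_v` -/
def grow : Tree → Bool → Tree
  | .leaf, _ => .leaf
  | .node a b, false => .node (.node a b) b
  | .node a b, true => .node a (.node a b)

/-- `T_v` for a word `v` in the letters `L` (`false`) and `R` (`true`) -/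
def tree (v : List Bool) : Tree := v.foldl grow (.node .leaf .leaf)

/-- tail of the law of the stopped walk -/
noncomputable def tail (p : ℝ) : Tree → ℤ → ℝ
  | .leaf => one0
  | .node l r => fun k => p * tail p r (k - 1) + (1 - p) * tail p l (k + 1)

lemma tree_tail (p : ℝ) (v : List Bool) : ∃ l r, tree v = .node l r ∧
    tail p r = (tlp p v.reverse).1 ∧ tail p l = (tlp p v.reverse).2 := by
  induction v using List.reverseRecOn with
  | nil => exact ⟨.leaf, .leaf, rfl, rfl, rfl⟩
  | append_singleton v b ih =>
    obtain ⟨l, r, hT, hr, hl⟩ := ih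
    have e : tree (v ++ [b]) = grow (.node l r) b := by
      rw [← hT]; simp [tree]
    cases b with
    | true =>
      refine ⟨l, .node l r, e, ?_, ?_⟩
      · rw [List.reverse_append]
        show (fun k => p * tail p r (k - 1) + (1 - p) * tail p l (k + 1)) = _
        rw [hr, hl]; rfl
      · rw [List.reverse_append, hl]; rfl
    | false =>
      refine ⟨.node l r, r, e, ?_, ?_⟩
      · rw [List.reverse_append, hr]; rfl
      · rw [List.reverse_append]
        show (fun k => p * tail p r (k - 1) + (1 - p) * tail p l (k + 1)) = _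
        rw [hr, hl]; rfl

lemma tail_tree (p : ℝ) (v : List Bool) (k : ℤ) :
    tail p (tree v) k = p * (tlp p v.reverse).1 (k - 1) + (1 - p) * (tlp p v.reverse).2 (k + 1) := by
  obtain ⟨l, r, hT, hr, hl⟩ := tree_tail p v
  rw [hT]
  show p * tail p r (k - 1) + (1 - p) * tail p l (k + 1) = _
  rw [hr, hl]

lemma stopped_node (l r : Tree) (x : ℕ → ℤ) :
    stopped (.node l r) x = x 0 + stopped (if x 0 = 1 then r else l) (fun i => x (i + 1)) := by
  unfold stopped
  by_cases h : x 0 = 1
  · simp only [tau, if_pos h]
    rw [add_comm 1, Finset.sum_range_succ', add_comm]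
  · simp only [tau, if_neg h]
    rw [add_comm 1, Finset.sum_range_succ', add_comm]

variable {Ω : Type*} [MeasurableSpace Ω] {μ : Measure Ω} [IsProbabilityMeasure μ]

/-- cylinder -/
def cyl (ξ : ℕ → Ω → ℤ) (m : ℕ) (a : ℕ → ℤ) : Set Ω := ⋂ i ∈ Finset.range m, ξ i ⁻¹' {a i}

/-- probability of a cylinder -/
noncomputable def wgt (p : ℝ) (m : ℕ) (a : ℕ → ℤ) : ℝ :=
  ∏ i ∈ Finset.range m, if a i = 1 then p else 1 - p

lemma wgt_succ (p : ℝ) (m : ℕ) (a : ℕ → ℤ) (b : ℤ) :
    wgt p (m + 1) (Function.update a m b) = wgt p m a * (if b = 1 then p else 1 - p) := by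
  unfold wgt
  rw [Finset.prod_range_succ, Function.update_self]
  congr 1
  refine Finset.prod_congr rfl fun i hi => ?_
  rw [Function.update_of_ne (by have := Finset.mem_range.mp hi; omega)]

lemma cyl_succ (ξ : ℕ → Ω → ℤ) (m : ℕ) (a : ℕ → ℤ) (b : ℤ) :
    cyl ξ (m+1) (Function.update a m b) = cyl ξ m a ∩ ξ m ⁻¹' {b} := by
  ext ω
  simp only [cyl, Set.mem_iInter, Finset.mem_range, Set.mem_preimage, Set.mem_singleton_iff,
    Set.mem_inter_iff]
  constructor
  · intro h
    refine ⟨fun i hi => ?_, ?_⟩
    · have := h i (by omega)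
      rwa [Function.update_of_ne (by omega)] at this
    · have := h m (by omega)
      rwa [Function.update_self] at this
  · rintro ⟨h1, h2⟩ i hi
    by_cases e : i = m
    · subst e; rwa [Function.update_self]
    · rw [Function.update_of_ne e]; exact h1 i (by omega)

/-- The law of the stopped walk, jointly with the past. -/
lemma law (p : ℝ) (ξ : ℕ → Ω → ℤ) (hm : ∀ i, Measurable (ξ i))
    (hp : ∀ m a, (∀ i, a i = 1 ∨ a i = -1) → μ.real (cyl ξ m a) = wgt p m a)
    (hn : ∀ i, μ.real {ω | ξ i ω ≠ 1 ∧ ξ i ω ≠ -1} = 0) (T : Tree) :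
    ∀ (m : ℕ) (a : ℕ → ℤ) (k : ℤ), (∀ i, a i = 1 ∨ a i = -1) →
      μ.real (cyl ξ m a ∩ {ω | k ≤ stopped T (fun i => ξ (m+i) ω)}) = wgt p m a * tail p T k := by
  induction T with
  | leaf =>
    intro m a k ha
    have e : ∀ x, stopped .leaf x = 0 := fun x => rfl
    simp only [e, tail, one0]
    by_cases hk : k ≤ 0
    · simp only [hk, Set.setOf_true, Set.inter_univ, if_true, mul_one]
      exact hp m a ha
    · simp [hk]
  | node l r ihl ihr =>
    intro m a k ha
    set E : Set Ω := cyl ξ m a ∩ {ω | k ≤ stopped (.node l r) (fun i => ξ (m+i) ω)} with hE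
    have M1 : MeasurableSet (ξ m ⁻¹' {1}) := hm m (measurableSet_singleton _)
    have M2 : MeasurableSet (ξ m ⁻¹' {-1}) := hm m (measurableSet_singleton _)
    have s1 := measureReal_inter_add_sdiff (μ := μ) (s := E) M1 (measure_ne_top _ _)
    have s2 := measureReal_inter_add_sdiff (μ := μ) (s := E \ ξ m ⁻¹' {1}) M2 (measure_ne_top _ _)
    have z : μ.real ((E \ ξ m ⁻¹' {1}) \ ξ m ⁻¹' {-1}) = 0 := by
      refine le_antisymm ?_ measureReal_nonneg
      rw [← hn m]
      refine measureReal_mono ?_
      intro ω hω
      exact ⟨fun h => hω.1.2 h, fun h => hω.2 h⟩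
    have e1 : E ∩ ξ m ⁻¹' {1} = cyl ξ (m+1) (Function.update a m 1) ∩
        {ω | k - 1 ≤ stopped r (fun i => ξ (m+1+i) ω)} := by
      rw [cyl_succ]
      ext ω
      simp only [hE, Set.mem_inter_iff, Set.mem_setOf_eq, Set.mem_preimage, Set.mem_singleton_iff]
      constructor
      · rintro ⟨⟨h1, h2⟩, h3⟩
        refine ⟨⟨h1, h3⟩, ?_⟩
        rw [stopped_node] at h2
        simp only [add_zero, h3, if_true] at h2
        have e : (fun i => ξ (m + (i + 1)) ω) = fun i => ξ (m + 1 + i) ω := by
          funext i; rw [show m + (i + 1) = m + 1 + i by ring]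
        rw [e] at h2
        linarith
      · rintro ⟨⟨h1, h3⟩, h2⟩
        refine ⟨⟨h1, ?_⟩, h3⟩
        rw [stopped_node]
        simp only [add_zero, h3, if_true]
        have e : (fun i => ξ (m + (i + 1)) ω) = fun i => ξ (m + 1 + i) ω := by
          funext i; rw [show m + (i + 1) = m + 1 + i by ring]
        rw [e]
        linarith
    have e2 : (E \ ξ m ⁻¹' {1}) ∩ ξ m ⁻¹' {-1} = cyl ξ (m+1) (Function.update a m (-1)) ∩
        {ω | k + 1 ≤ stopped l (fun i => ξ (m+1+i) ω)} := by
      rw [cyl_succ]
      ext ω
      simp only [hE, Set.mem_inter_iff, Set.mem_setOf_eq, Set.mem_preimage, Set.mem_singleton_iff,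
        Set.mem_diff]
      have ne : ¬ ((-1:ℤ) = 1) := by decide
      constructor
      · rintro ⟨⟨⟨h1, h2⟩, h4⟩, h3⟩
        refine ⟨⟨h1, h3⟩, ?_⟩
        rw [stopped_node] at h2
        simp only [add_zero, h3, if_neg ne] at h2
        have e : (fun i => ξ (m + (i + 1)) ω) = fun i => ξ (m + 1 + i) ω := by
          funext i; rw [show m + (i + 1) = m + 1 + i by ring]
        rw [e] at h2
        linarith
      · rintro ⟨⟨h1, h3⟩, h2⟩
        refine ⟨⟨⟨h1, ?_⟩, ?_⟩, h3⟩
        · rw [stopped_node]
          simp only [add_zero, h3, if_neg ne]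
          have e : (fun i => ξ (m + (i + 1)) ω) = fun i => ξ (m + 1 + i) ω := by
            funext i; rw [show m + (i + 1) = m + 1 + i by ring]
          rw [e]
          linarith
        · rw [h3]; exact ne
    have u1 : ∀ i, Function.update a m 1 i = 1 ∨ Function.update a m 1 i = -1 := by
      intro i
      by_cases e : i = m
      · subst e; simp
      · rw [Function.update_of_ne e]; exact ha i
    have u2 : ∀ i, Function.update a m (-1) i = 1 ∨ Function.update a m (-1) i = -1 := by
      intro i
      by_cases e : i = m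
      · subst e; simp
      · rw [Function.update_of_ne e]; exact ha i
    rw [e1, ihr (m+1) _ _ u1, wgt_succ, if_pos rfl] at s1
    rw [e2, ihl (m+1) _ _ u2, z, add_zero, wgt_succ, if_neg (by decide)] at s2
    rw [← s1, ← s2]
    show _ = wgt p m a * (p * tail p r (k - 1) + (1 - p) * tail p l (k + 1))
    ring

/-- **Stopped random walks on growing trees.** Let `ξ_0, ξ_1, ...` be independent, with values `1`
with probability `p` and `-1` with probability `1 - p`, `0 < p < 1`, and let `v` be a word in the
letters `L` (`false`) and `R` (`true`).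

(1), (2) exact formulas, where `subs v i j` is the number of distinct subsequences of `v` with `i`
letters `R` and `j` letters `L`;

(3) for `p ≥ 1/2` the walk stopped on `T_v` is `≥ 0` with probability at least `p`; equality holds
if and only if `v` has no letter `L`, or `p = 1/2` and all runs of the letter `R` are at least as
long as the number of letters `L` (`LongRuns`); if a run is shorter, there is an explicit lower
bound for the difference;

(4) the mirror image of (3), for `p ≤ 1/2` and the probability that the stopped walk is `≤ 0`;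

(5) the persistent asymmetry: for `p ≥ 1/2` the walk stopped on `T_{Lv}` is `≥ 0` with probability
greater than `p`, and for `p ≤ 1/2` the walk stopped on `T_{Rv}` is `≤ 0` with probability greater
than `1 - p`, with explicit lower bounds. -/
theorem result {Ω : Type} [MeasurableSpace Ω] (μ : Measure Ω) [IsProbabilityMeasure μ]
    (p : ℝ) (hp0 : 0 < p) (hp1 : p < 1)
    (ξ : ℕ → Ω → ℤ) (hm : ∀ i, Measurable (ξ i)) (hind : iIndepFun ξ μ)
    (hplus : ∀ i, μ.real {ω | ξ i ω = 1} = p) (hminus : ∀ i, μ.real {ω | ξ i ω = -1} = 1 - p)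
    (v : List Bool) :
    (μ.real {ω | 0 ≤ stopped (tree v) (fun i => ξ i ω)} = p +
      ∑ k ∈ range (v.length + 1), (p * (1 - p)) ^ (k + 1) *
        ((subs v k (k + 1) : ℝ) - (1 - p) * (subs v (k + 1) (k + 1) : ℝ))) ∧
    (μ.real {ω | stopped (tree v) (fun i => ξ i ω) ≤ 0} = (1 - p) +
      ∑ k ∈ range (v.length + 1), (p * (1 - p)) ^ (k + 1) *
        ((subs v (k + 1) k : ℝ) - p * (subs v (k + 1) (k + 1) : ℝ))) ∧
    (1 / 2 ≤ p → p ≤ μ.real {ω | 0 ≤ stopped (tree v) (fun i => ξ i ω)} ∧
      (μ.real {ω | 0 ≤ stopped (tree v) (fun i => ξ i ω)} = p ↔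
        false ∉ v ∨ (p = 1 / 2 ∧ LongRuns false v)) ∧
      (¬ LongRuns false v →
        p + (1 - p) * (p * (1 - p)) ^ (min (v.count false) (v.count true + 1)) ≤
          μ.real {ω | 0 ≤ stopped (tree v) (fun i => ξ i ω)})) ∧
    (p ≤ 1 / 2 → 1 - p ≤ μ.real {ω | stopped (tree v) (fun i => ξ i ω) ≤ 0} ∧
      (μ.real {ω | stopped (tree v) (fun i => ξ i ω) ≤ 0} = 1 - p ↔
        true ∉ v ∨ (p = 1 / 2 ∧ LongRuns true v)) ∧
      (¬ LongRuns true v →
        (1 - p) + p * (p * (1 - p)) ^ (min (v.count true) (v.count false + 1)) ≤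
          μ.real {ω | stopped (tree v) (fun i => ξ i ω) ≤ 0})) ∧
    (1 / 2 ≤ p → p + (1 - p) * (p * (1 - p)) ^ (min (v.count false) (v.count true) + 1) ≤
      μ.real {ω | 0 ≤ stopped (tree (false :: v)) (fun i => ξ i ω)}) ∧
    (p ≤ 1 / 2 → (1 - p) + p * (p * (1 - p)) ^ (min (v.count false) (v.count true) + 1) ≤
      μ.real {ω | stopped (tree (true :: v)) (fun i => ξ i ω) ≤ 0}) := by
  have hq0 : 1 - p ≠ 0 := by linarith
  have hp : ∀ m a, (∀ i, a i = 1 ∨ a i = -1) → μ.real (cyl ξ m a) = wgt p m a := by
    intro m a ha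
    have h := hind.measure_inter_preimage_eq_mul (Finset.range m) (sets := fun i => {a i})
      (fun i _ => measurableSet_singleton _)
    unfold cyl wgt
    rw [measureReal_def, h, ENNReal.toReal_prod]
    refine Finset.prod_congr rfl fun i _ => ?_
    rcases ha i with e | e
    · rw [e, if_pos rfl]
      exact hplus i
    · rw [e, if_neg (by decide)]
      exact hminus i
  have hn : ∀ i, μ.real {ω | ξ i ω ≠ 1 ∧ ξ i ω ≠ -1} = 0 := by
    intro i
    have M1 : MeasurableSet {ω | ξ i ω = 1} := hm i (measurableSet_singleton _)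
    have M2 : MeasurableSet {ω | ξ i ω = -1} := hm i (measurableSet_singleton _)
    have d : Disjoint {ω | ξ i ω = 1} {ω | ξ i ω = -1} := by
      rw [Set.disjoint_left]; intro ω h1 h2
      simp only [Set.mem_setOf_eq] at h1 h2
      omega
    have e : {ω | ξ i ω ≠ 1 ∧ ξ i ω ≠ -1} = ({ω | ξ i ω = 1} ∪ {ω | ξ i ω = -1})ᶜ := by
      ext ω; simp
    rw [e, measureReal_compl (M1.union M2), measureReal_union d M2, hplus, hminus]
    simp
  have L := law p ξ hm hp hn
  have tailval : ∀ (T : Tree) (k : ℤ),
      μ.real {ω | k ≤ stopped T (fun i => ξ i ω)} = tail p T k := by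
    intro T k
    have := L T 0 (fun _ => 1) k (fun _ => Or.inl rfl)
    simpa [cyl, wgt] using this
  have hpos : ∀ u : List Bool, μ.real {ω | 0 ≤ stopped (tree u) (fun i => ξ i ω)} = pos p u := by
    intro u
    rw [tailval, tail_tree, tail_pos p hp0.ne' hq0 u]
  have hone : ∀ u : List Bool, μ.real {ω | 1 ≤ stopped (tree u) (fun i => ξ i ω)} =
      1 - pos (1 - p) (u.map not) := by
    intro u
    rw [tailval, tail_tree, tail_one p hp0.ne' hq0 u]
  have hmeas : ∀ T : Tree, Measurable fun ω => stopped T (fun i => ξ i ω) := by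
    intro T
    have h : ∀ T : Tree, ∀ m : ℕ, Measurable fun ω => stopped T (fun i => ξ (m + i) ω) := by
      intro T
      induction T with
      | leaf => intro m; exact measurable_const
      | node l r ihl ihr =>
        intro m
        have e : (fun ω => stopped (.node l r) (fun i => ξ (m + i) ω)) = fun ω =>
            ξ m ω + if ξ m ω = 1 then stopped r (fun i => ξ (m + 1 + i) ω)
              else stopped l (fun i => ξ (m + 1 + i) ω) := by
          funext ω
          rw [stopped_node]
          have e' : (fun i => ξ (m + (i + 1)) ω) = fun i => ξ (m + 1 + i) ω := by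
            funext i; rw [show m + (i + 1) = m + 1 + i by ring]
          simp only [add_zero, e']
          split_ifs <;> rfl
        rw [e]
        exact (hm m).add (Measurable.ite (hm m (measurableSet_singleton 1)) (ihr (m+1))
          (ihl (m+1)))
    simpa using h T 0
  have hneg : ∀ u : List Bool, μ.real {ω | stopped (tree u) (fun i => ξ i ω) ≤ 0} =
      pos (1 - p) (u.map not) := by
    intro u
    have e : {ω | stopped (tree u) (fun i => ξ i ω) ≤ 0} =
        {ω | 1 ≤ stopped (tree u) (fun i => ξ i ω)}ᶜ := by
      ext ω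
      simp only [Set.mem_setOf_eq, Set.mem_compl_iff]
      omega
    rw [e, measureReal_compl (measurableSet_le measurable_const (hmeas _)), hone]
    simp
  have hmemnot : true ∈ v ↔ false ∈ v.map not := by
    rw [List.mem_map]
    constructor
    · intro h; exact ⟨true, h, rfl⟩
    · rintro ⟨b, hb, e⟩
      have : b = true := by
        cases b
        · exact absurd e (by decide)
        · rfl
      rwa [this] at hb
  have hnl : ∀ u : List Bool, ¬ LongRuns false (false :: u) := by
    intro u h
    have h1 := h [] (by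
      unfold List.splitOn
      rw [List.splitOnP_cons_eq_if_modifyHead, if_pos (by decide)]
      exact List.mem_cons_self)
    rw [List.count_cons_self] at h1
    simp at h1
  have hmin : ∀ x y : ℕ, min (x + 1) (y + 1) = min x y + 1 := fun x y => by omega
  refine ⟨?_, ?_, ?_, ?_, ?_, ?_⟩
  · rw [hpos]; rfl
  · rw [hneg]
    unfold pos
    rw [List.length_map]
    congr 1
    refine Finset.sum_congr rfl fun k _ => ?_
    rw [subs_not, subs_not]
    ring
  · intro h
    rw [hpos]
    exact ⟨pos_ge p h hp1 v, pos_eq_iff p h hp1 v, pos_poor p h hp1 v⟩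
  · intro h
    have h' : 1 / 2 ≤ 1 - p := by linarith
    have h1' : 1 - p < 1 := by linarith
    rw [hneg]
    refine ⟨pos_ge (1 - p) h' h1' _, ?_, ?_⟩
    · rw [pos_eq_iff (1 - p) h' h1', longRuns_not, ← hmemnot]
      have : 1 - p = 1 / 2 ↔ p = 1 / 2 := ⟨fun h => by linarith, fun h => by linarith⟩
      rw [this]
    · intro hv
      have h2 := pos_poor (1 - p) h' h1' (v.map not) (fun hh => hv ((longRuns_not v).mp hh))
      rw [(count_not v).1, (count_not v).2] at h2
      have e1 : 1 - (1 - p) = p := by ring
      rw [e1, mul_comm (1 - p) p] at h2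
      exact h2
  · intro h
    rw [hpos]
    have h2 := pos_poor p h hp1 (false :: v) (hnl v)
    rw [List.count_cons_self, List.count_cons_of_ne (by decide), hmin] at h2
    exact h2
  · intro h
    have h' : 1 / 2 ≤ 1 - p := by linarith
    have h1' : 1 - p < 1 := by linarith
    rw [hneg]
    have h2 := pos_poor (1 - p) h' h1' (false :: v.map not) (hnl _)
    rw [List.count_cons_self, List.count_cons_of_ne (by decide), (count_not v).1,
      (count_not v).2, hmin] at h2
    have e1 : 1 - (1 - p) = p := by ring
    rw [e1, mul_comm (1 - p) p, min_comm] at h2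
    exact h2

end Pool.Agent.Results.MP_64b22f_nt.BiasedEqualityCases
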