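import Pool.Agent.Results.MP_64b22f_nt.PersistentAsymmetry
import Pool.Agent.Y471.CK.Dens
import Pool.Agent.Y471.CK.Strict

/-!
# Persistent asymmetry with explicit bounds, and Cusick's conjecture
-/

set_option autoImplicit false

namespace Pool.Agent.Results.MP_64b22f_nt.CusickConjecture

open MeasureTheory ProbabilityTheory Filter Topology
open Pool.Agent.Results.MP_64b22f_nt.PersistentAsymmetry
open Pool.Agent.Y471.CK

/-- the law of the stopped walk has tail `tail T` -/
lemma tail_val {Ω : Type} [MeasurableSpace Ω] (μ : Measure Ω) [IsProbabilityMeasure μ]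
    (ξ : ℕ → Ω → ℤ) (hm : ∀ i, Measurable (ξ i)) (hind : iIndepFun ξ μ)
    (hplus : ∀ i, μ {ω | ξ i ω = 1} = 1 / 2) (hminus : ∀ i, μ {ω | ξ i ω = -1} = 1 / 2)
    (T : Tree) (k : ℤ) : μ.real {ω | k ≤ stopped T (fun i => ξ i ω)} = tail T k := by
  have hp : ∀ m a, (∀ i, a i = 1 ∨ a i = -1) → μ.real (cyl ξ m a) = (1/2)^m := by
    intro m a ha
    have h := hind.measure_inter_preimage_eq_mul (Finset.range m) (sets := fun i => {a i})
      (fun i _ => measurableSet_singleton _)
    unfold cyl
    rw [measureReal_def, h, ENNReal.toReal_prod]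
    rw [Finset.prod_congr rfl (g := fun _ => (1/2:ℝ)), Finset.prod_const, Finset.card_range]
    intro i _
    rcases ha i with e | e
    · rw [e]
      have := hplus i
      have e' : ξ i ⁻¹' {1} = {ω | ξ i ω = 1} := rfl
      rw [e', this]; simp
    · rw [e]
      have := hminus i
      have e' : ξ i ⁻¹' {-1} = {ω | ξ i ω = -1} := rfl
      rw [e', this]; simp
  have hn : ∀ i, μ.real {ω | ξ i ω ≠ 1 ∧ ξ i ω ≠ -1} = 0 := by
    intro i
    have M1 : MeasurableSet {ω | ξ i ω = 1} := hm i (measurableSet_singleton _)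
    have M2 : MeasurableSet {ω | ξ i ω = -1} := hm i (measurableSet_singleton _)
    have d : Disjoint {ω | ξ i ω = 1} {ω | ξ i ω = -1} := by
      rw [Set.disjoint_left]; intro ω h1 h2
      simp only [Set.mem_setOf_eq] at h1 h2
      omega
    have e : {ω | ξ i ω ≠ 1 ∧ ξ i ω ≠ -1} = ({ω | ξ i ω = 1} ∪ {ω | ξ i ω = -1})ᶜ := by
      ext ω; simp
    rw [e, measureReal_compl (M1.union M2), measureReal_union d M2]
    rw [measureReal_def, measureReal_def, measureReal_def, hplus, hminus]
    simp
    norm_num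
  have := law ξ hm hp hn T 0 (fun _ => 1) k (fun _ => Or.inl rfl)
  simpa [cyl] using this

/-- **Persistent asymmetry with explicit bounds, and Cusick's conjecture.**
1. For random signs `ξ 0, ξ 1, ...` and every word `v`, the walk stopped on the tree `T_{Lv}` is
`≥ 0`, and the walk stopped on the tree `T_{Rv}` is `≤ 0`, with probability greater than `1/2`
(Q1); in fact with probability at least `1/2 + (1/2) (1/4)^(1 + min(#L(v), #R(v)))`.
2. For every `t` the densities `ρ d` of the sets `{n : s (n + t) - s n = d}` exist, have sum `1`,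
and their sum over `d ≥ 0`, which is the density of `{n : s n ≤ s (n + t)}`, is at least
`1/2 + (1/2) (1/4)^(s t)`; so it is greater than `1/2`. Here `s n` is the number of ones in the
binary expansion of `n`. -/
theorem result :
    (∀ (Ω : Type) [MeasurableSpace Ω] (μ : Measure Ω) [IsProbabilityMeasure μ]
      (ξ : ℕ → Ω → ℤ), (∀ i, Measurable (ξ i)) → iIndepFun ξ μ →
      (∀ i, μ {ω | ξ i ω = 1} = 1 / 2) → (∀ i, μ {ω | ξ i ω = -1} = 1 / 2) →
      ∀ v : List Bool,
        (1 / 2 < μ {ω | 0 ≤ stopped (tree (false :: v)) (fun i => ξ i ω)} ∧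
          1 / 2 < μ {ω | stopped (tree (true :: v)) (fun i => ξ i ω) ≤ 0}) ∧
        (1 / 2 + 1 / 2 * (1 / 4 : ℝ) ^ (min (v.count false) (v.count true) + 1) ≤
            μ.real {ω | 0 ≤ stopped (tree (false :: v)) (fun i => ξ i ω)} ∧
          1 / 2 + 1 / 2 * (1 / 4 : ℝ) ^ (min (v.count false) (v.count true) + 1) ≤
            μ.real {ω | stopped (tree (true :: v)) (fun i => ξ i ω) ≤ 0})) ∧
    (∀ t : ℕ, ∃ ρ : ℤ → ℝ,
      (∀ d : ℤ, Tendsto (fun N : ℕ =>
        (((Finset.range N).filter fun n => (s (n + t) : ℤ) - s n = d).card : ℝ) / N) atTop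
          (𝓝 (ρ d))) ∧
      HasSum ρ 1 ∧
      ∃ c : ℝ, HasSum (fun d : ℕ => ρ d) c ∧
        Tendsto (fun N : ℕ =>
          (((Finset.range N).filter fun n => s n ≤ s (n + t)).card : ℝ) / N) atTop (𝓝 c) ∧
        1 / 2 + 1 / 2 * (1 / 4 : ℝ) ^ s t ≤ c ∧ 1 / 2 < c) := by
  refine ⟨?_, ?_⟩
  · intro Ω _ μ _ ξ hm hind hplus hminus v
    refine ⟨PersistentAsymmetry.result μ ξ hm hind hplus hminus v, ?_, ?_⟩
    · rw [tail_val μ ξ hm hind hplus hminus, tail_tree, List.reverse_cons,
        ← List.count_reverse (a := false) (l := v), ← List.count_reverse (a := true) (l := v)]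
      exact strict_odd_end_zero' _
    · have hs : tail (tree (true :: v)) 1 ≤
          1/2 - 1/2 * (1/4 : ℝ) ^ (min (v.count false) (v.count true) + 1) := by
        rw [tail_tree, List.reverse_cons,
          ← List.count_reverse (a := false) (l := v), ← List.count_reverse (a := true) (l := v)]
        exact strict_odd_end_one' _
      have t := tail_val μ ξ hm hind hplus hminus (tree (true :: v)) 1
      have c : {ω | stopped (tree (true :: v)) (fun i => ξ i ω) ≤ 0} ∪
          {ω | 1 ≤ stopped (tree (true :: v)) (fun i => ξ i ω)} = Set.univ := by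
        ext ω; simp only [Set.mem_union, Set.mem_setOf_eq, Set.mem_univ, iff_true]; omega
      have u := measureReal_union_le (μ := μ) {ω | stopped (tree (true :: v)) (fun i => ξ i ω) ≤ 0}
        {ω | 1 ≤ stopped (tree (true :: v)) (fun i => ξ i ω)}
      rw [c, t] at u
      have one : μ.real (Set.univ : Set Ω) = 1 := by simp
      rw [one] at u
      linarith
  · intro t
    obtain ⟨ρ, h1, h2, c, h3, h4, h5⟩ := Pool.Agent.Y471.CK.main t
    refine ⟨ρ, fun d => (h1 d).congr fun N => ?_, h2, c, h4, h3.congr fun N => ?_, h5, ?_⟩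
    · unfold Pool.Agent.Y471.CK.S pt df
      rw [Finset.sum_boole]
    · unfold Pool.Agent.Y471.CK.S up df
      rw [Finset.sum_boole]
      congr 3
      ext n
      simp only [Finset.mem_filter]
      constructor <;> rintro ⟨a, b⟩ <;> exact ⟨a, by omega⟩
    · have : (0:ℝ) < (1 / 4 : ℝ) ^ s t := by positivity
      linarith

end Pool.Agent.Results.MP_64b22f_nt.CusickConjecture
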